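import Mathlib
import Pool.Agent.N119.PS.Stm4
import Pool.Agent.N697.PSC.ETA
import Pool.Agent.H67R4.SR.Blocks

set_option autoImplicit false

/-!
# PSC4/POW: counting currents of arbitrary elements

Every nontrivial element is conjugate to a power `r ^ k` of the element `r` of a periodic word, and
its counting current is `k` times the counting current of `r`.

Author: helper488 (project PSC4 of helper119, pages MP_fee052_al and MP_79396e_al).
-/

namespace Pool.Agent.N488.PSC4.POW

open Pool.Agent.H472R3 Pool.Agent.H67R3.FSR Pool.Agent.H67R4.SR Pool.Agent.N119.PS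
open Pool.Agent.N697.PSC.ETA
open MeasureTheory Topology Filter
open scoped ENNReal NNReal

variable {N : ℕ}

/-! ### The periodic word of a cyclically reduced word -/

/-- The least period. -/
theorem exists_per (c : ℕ → Lt N) (m : ℕ) (hm : 0 < m) (hper : ∀ j, c (j + m) = c j)
    (hred : ∀ j, c (j + 1) ≠ inv' (c j)) :
    ∃ (p : PerWord N) (k : ℕ), p.c = c ∧ 1 ≤ k ∧ m = k * p.m := by
  classical
  have hex : ∃ d, 0 < d ∧ ∀ j, c (j + d) = c j := ⟨m, hm, hper⟩
  obtain ⟨d, hd, hmin⟩ : ∃ d, (0 < d ∧ ∀ j, c (j + d) = c j) ∧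
      ∀ e, e < d → ¬ (0 < e ∧ ∀ j, c (j + e) = c j) :=
    ⟨Nat.find hex, Nat.find_spec hex, fun e he => Nat.find_min hex he⟩
  have hmul : ∀ n j, c (j + n * d) = c j := by
    intro n
    induction n with
    | zero => intro j; rw [zero_mul, add_zero]
    | succ n ih =>
      intro j
      rw [add_mul, one_mul, ← add_assoc, hd.2, ih]
  have hdvd : m % d = 0 := by
    by_contra h
    refine hmin (m % d) (Nat.mod_lt _ hd.1) ⟨Nat.pos_of_ne_zero h, fun j => ?_⟩
    have h1 := Nat.mod_add_div m d
    rw [← hmul (m / d) (j + m % d), show j + m % d + m / d * d = j + m by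
      rw [mul_comm (m / d) d]; omega, hper]
  have hprim : ∀ i j, i < j → j < d → ¬ (∀ t, c (i + t) = c (j + t)) := by
    intro i j hij hjd h
    refine hmin (j - i) (by omega) ⟨by omega, fun s => ?_⟩
    have h2 : i ≤ i * d := Nat.le_mul_of_pos_right _ hd.1
    have h1 := h (s + i * d - i)
    rw [show i + (s + i * d - i) = s + i * d by omega,
      show j + (s + i * d - i) = s + (j - i) + i * d by omega, hmul, hmul] at h1
    exact h1.symm
  refine ⟨⟨c, d, hd.1, hd.2, hred, ?_⟩, m / d, rfl, ?_, ?_⟩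
  · intro i hi j hj h
    rcases lt_trichotomy i j with hij | hij | hij
    · exact absurd h (hprim i j hij hj)
    · exact hij
    · exact absurd (fun t => (h t).symm) (hprim j i hij hi)
  · refine Nat.div_pos (Nat.le_of_dvd hm (Nat.dvd_of_mod_eq_zero hdvd)) hd.1
  · exact (Nat.div_mul_cancel (Nat.dvd_of_mod_eq_zero hdvd)).symm

theorem exists_word (L : List (Lt N)) (hne : L ≠ []) (hL : FreeGroup.IsReduced (L ++ L)) :
    ∃ (p : PerWord N) (k : ℕ), 1 ≤ k ∧ p.wd 0 (k * p.m) = L := by
  have hpos : 0 < L.length := List.length_pos_iff.2 hne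
  obtain ⟨p, k, hc, hk, hm⟩ := exists_per (fun j => L[j % L.length]'(Nat.mod_lt _ hpos)) L.length
    hpos (fun j => by simp) (by
      intro j h
      have hlt : j % L.length < L.length := Nat.mod_lt _ hpos
      have h1 := (List.isChain_iff_getElem.1 hL) (j % L.length) (by
        rw [List.length_append]; omega)
      have h2 : (L ++ L)[j % L.length]'(by rw [List.length_append]; omega) =
          L[j % L.length]'hlt := List.getElem_append_left hlt
      have h3 : (L ++ L)[j % L.length + 1]'(by rw [List.length_append]; omega) =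
          L[(j + 1) % L.length]'(Nat.mod_lt _ hpos) := by
        rcases Nat.lt_or_ge (j % L.length + 1) L.length with h4 | h4
        · rw [List.getElem_append_left h4]
          have e : (j + 1) % L.length = j % L.length + 1 := by
            rw [← Nat.mod_add_mod, Nat.mod_eq_of_lt h4]
          simp only [e]
        · rw [List.getElem_append_right h4]
          have e0 : j % L.length + 1 = L.length := by omega
          have e : (j + 1) % L.length = j % L.length + 1 - L.length := by
            rw [← Nat.mod_add_mod, e0, Nat.mod_self, Nat.sub_self]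
          simp only [e]
      rw [h2, h3] at h1
      have h5 : L[(j + 1) % L.length]'(Nat.mod_lt _ hpos) = inv' (L[j % L.length]'hlt) := h
      rw [h5] at h1
      have h6 := h1 rfl
      simp [inv'] at h6)
  refine ⟨p, k, hk, ?_⟩
  rw [← hm]
  unfold PerWord.wd
  rw [hc]
  apply List.ext_getElem
  · simp
  · intro i h1 h2
    simp [Nat.mod_eq_of_lt h2]

theorem el_mul (p : PerWord N) (k : ℕ) : p.el 0 (k * p.m) = p.g ^ k := by
  have h1 := V_el p 0 (k * p.m)
  have h2 := V_mul p k
  rw [show ((0 : ℕ) : ℤ) = 0 by rfl, V_zero, one_mul, zero_add] at h1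
  rw [← h1, Nat.cast_mul, h2, zpow_natCast]

/-! ### Fixed points of powers -/

section powers

variable (p : PerWord N) {k : ℕ} (hk : 1 ≤ k)

include hk

/-- The two kinds of fixed points of `p.g ^ k`. -/
theorem dichK {ξ : Bd N} (hξ : p.g ^ k • ξ = ξ) :
    (∀ j, ξ.1 (V p j) = C p j) ∨ (∀ j, ξ.1 (V p j) = inv' (C p (j - 1))) := by
  by_cases h : ∀ j, ξ.1 (V p j) = C p j
  · exact Or.inl h
  right
  push Not at h
  obtain ⟨j0, hj0⟩ := h
  have hA : ∀ n : ℕ, ξ.1 (V p (j0 + n)) ≠ C p (j0 + n) := by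
    intro n
    induction n with
    | zero => simpa using hj0
    | succ n ih =>
      have h1 := (ξ.2 (V p (j0 + n)) (C p (j0 + n))).mpr ih
      rw [← V_succ] at h1
      rw [show j0 + ((n + 1 : ℕ) : ℤ) = j0 + n + 1 by push_cast; ring, h1]
      exact (C_red p _).symm
  have hB : ∀ j, ξ.1 (V p j) ≠ C p j := by
    intro j
    have h1 : ξ.1 (V p (j + ((k * (j0 - j).toNat : ℕ) : ℤ) * p.m)) = ξ.1 (V p j) := by
      rw [V_add_mul, zpow_natCast, pow_mul, fixed_pow hξ]
    have h2 : j0 ≤ j + ((k * (j0 - j).toNat : ℕ) : ℤ) * p.m := by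
      have h3 : j0 - j ≤ ((j0 - j).toNat : ℤ) := Int.self_le_toNat _
      have h4 : (0 : ℤ) ≤ ((j0 - j).toNat : ℤ) := by positivity
      have h5 := mpos p
      have h6 : (1 : ℤ) ≤ (k : ℤ) * p.m := by
        have : (1 : ℤ) ≤ k := by exact_mod_cast hk
        nlinarith
      push_cast
      have h7 : ((k : ℤ) * ((j0 - j).toNat : ℤ)) * p.m = ((k : ℤ) * p.m) * ((j0 - j).toNat : ℤ) := by
        ring
      have h8 : 1 * ((j0 - j).toNat : ℤ) ≤ ((k : ℤ) * p.m) * ((j0 - j).toNat : ℤ) :=
        mul_le_mul_of_nonneg_right h6 h4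
      linarith
    obtain ⟨n, hn⟩ := Int.eq_ofNat_of_zero_le (sub_nonneg.mpr h2)
    have h6 := hA n
    rw [show j0 + (n : ℤ) = j + ((k * (j0 - j).toNat : ℕ) : ℤ) * p.m by rw [← hn]; ring, h1,
      C_add_mul] at h6
    exact h6
  intro j
  have h1 := (ξ.2 (V p (j - 1)) (C p (j - 1))).mpr (hB (j - 1))
  rwa [← V_succ, sub_add_cancel] at h1

variable {p} {q : Bd2 N} (hq : IsAx p q)

include hq

theorem fixed_eqK {r : Bd2 N} (hr : p.g ^ k • r = r) : r = q ∨ r = flip2 q := by
  have key : ∀ ξ : Bd N, p.g ^ k • ξ = ξ → ξ = q.1.1 ∨ ξ = q.1.2 := by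
    intro ξ hξ
    rcases dichK p hk hξ with h | h
    · right
      exact eq_of_axis p (fun j => by rw [h j, hq.2.1 j]) fun j => Or.inl (h j)
    · left
      exact eq_of_axis p (fun j => by rw [h j, hq.2.2 j]) fun j => Or.inr (h j)
  have g1 : p.g ^ k • r.1.1 = r.1.1 := by rw [← smul_fst, hr]
  have g2 : p.g ^ k • r.1.2 = r.1.2 := by rw [← smul_snd, hr]
  rcases key _ g1 with k1 | k1 <;> rcases key _ g2 with k2 | k2
  · exact absurd (k1.trans k2.symm) r.2
  · left; exact Subtype.ext (Prod.ext k1 k2)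
  · right; exact Subtype.ext (Prod.ext k1 k2)
  · exact absurd (k1.trans k2.symm) r.2

theorem fixK {r : Bd2 N} (hr : p.g ^ k • r = r) : p.g • r = r := by
  rcases fixed_eqK hk hq hr with rfl | rfl
  · exact hq.1
  · have := congrArg flip2 hq.1
    exact this

theorem ends_pow : Ends (p.g ^ k) = Ends p.g := by
  ext r
  constructor
  · rintro ⟨f, hf⟩
    refine ⟨f, ?_⟩
    have h1 : p.g ^ k • (f⁻¹ • r) = f⁻¹ • r := by
      conv_rhs => rw [← hf]
      rw [← mul_smul, ← mul_smul]
      congr 1
      group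
    have h2 := fixK hk hq h1
    rw [mul_smul, mul_smul, h2, smul_inv_smul]
  · rintro ⟨f, hf⟩
    refine ⟨f, ?_⟩
    have h1 : (f * p.g * f⁻¹) ∈ MulAction.stabilizer (FreeGroup (Fin N)) r := hf
    have h2 := Subgroup.pow_mem _ h1 k
    rw [conj_pow] at h2
    exact h2

theorem cent_pow : Subgroup.centralizer {p.g ^ k} = Subgroup.zpowers p.g := by
  apply le_antisymm
  · intro x hx
    rw [Subgroup.mem_centralizer_singleton_iff] at hx
    have hqk : p.g ^ k • q = q := by
      have := zpow_fix hq k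
      rwa [zpow_natCast] at this
    have hfix : p.g ^ k • (x • q) = x • q := by
      rw [← mul_smul, ← hx, mul_smul, hqk]
    have hU : x • q ∈ U x := by
      have h1 : q ∈ U 1 := (mem_U_iff hq 1).mpr ⟨0, (V_zero p).symm⟩
      have := (smul_mem_U x 1 q).mpr h1
      rwa [mul_one] at this
    rcases fixed_eqK hk hq hfix with h | h
    · rw [h] at hU
      obtain ⟨j, hj⟩ := (mem_U_iff hq x).mp hU
      have h2 : (V p 0)⁻¹ • q = (V p j)⁻¹ • q := by
        rw [V_zero, inv_one, one_smul, eq_inv_smul_iff, ← hj, h]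
      obtain ⟨k, hk⟩ := Q_inj hq h2
      rw [hj, hk, zero_add, V_mul]
      exact Subgroup.zpow_mem_zpowers _ _
    · exfalso
      rw [h] at hU
      have hU' : q ∈ U x := fun h' => hU h'.symm
      obtain ⟨j, hj⟩ := (mem_U_iff hq x).mp hU'
      have h2 : (V p 0)⁻¹ • q = flip2 ((V p j)⁻¹ • q) := by
        rw [V_zero, inv_one, one_smul]
        have h3 : q = x⁻¹ • flip2 q := by rw [← h, inv_smul_smul]
        rw [← hj]
        exact h3
      exact Q_ne_flip hq 0 j h2
  · rw [Subgroup.zpowers_le, Subgroup.mem_centralizer_singleton_iff]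
    rw [← pow_succ, ← pow_succ']

end powers

/-! ### Indices -/

theorem relIndex_zpowers_pow {G : Type*} [Group G] {r : G} (hr : ¬ IsOfFinOrder r) (k : ℕ) :
    (Subgroup.zpowers (r ^ k)).relIndex (Subgroup.zpowers r) = k := by
  have hinj : Function.Injective (zpowersHom G r) := by
    intro a b h
    rw [zpowersHom_apply, zpowersHom_apply] at h
    exact Multiplicative.toAdd.injective (injective_zpow_iff_not_isOfFinOrder.2 hr h)
  have e1 : Subgroup.zpowers (r ^ k) =
      (Subgroup.zpowers (Multiplicative.ofAdd (k : ℤ))).map (zpowersHom G r) := by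
    rw [MonoidHom.map_zpowers, zpowersHom_apply, toAdd_ofAdd, zpow_natCast]
  have e2 : Subgroup.zpowers r = (⊤ : Subgroup (Multiplicative ℤ)).map (zpowersHom G r) := by
    ext x
    rw [Subgroup.mem_zpowers_iff, Subgroup.mem_map]
    constructor
    · rintro ⟨n, rfl⟩
      exact ⟨Multiplicative.ofAdd n, trivial, by rw [zpowersHom_apply, toAdd_ofAdd]⟩
    · rintro ⟨n, -, rfl⟩
      exact ⟨n.toAdd, by rw [zpowersHom_apply]⟩
  rw [e1, e2, Subgroup.relIndex_map_map_of_injective _ _ hinj, Subgroup.relIndex_top_right]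
  have e3 : Subgroup.zpowers (Multiplicative.ofAdd (k : ℤ)) =
      (AddSubgroup.zmultiples (k : ℤ)).toSubgroup := by
    ext x
    rw [Subgroup.mem_zpowers_iff]
    constructor
    · rintro ⟨n, rfl⟩
      exact ⟨n, rfl⟩
    · rintro ⟨n, hn⟩
      exact ⟨n, hn⟩
  rw [e3, AddSubgroup.index_toSubgroup, Int.index_zmultiples, Int.natAbs_natCast]

theorem expo_conj {g h : FreeGroup (Fin N)} (hc : IsConj g h) : expo g = expo h := by
  obtain ⟨c, hc⟩ := isConj_iff.1 hc
  have hinj : Function.Injective (MulAut.conj c).toMonoidHom := (MulAut.conj c).injective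
  unfold expo
  rw [← Subgroup.relIndex_map_map_of_injective _ _ hinj]
  congr 1
  · rw [MonoidHom.map_zpowers]
    congr 1
  · ext x
    rw [Subgroup.mem_map, Subgroup.mem_centralizer_singleton_iff]
    constructor
    · rintro ⟨y, hy, rfl⟩
      rw [Subgroup.mem_centralizer_singleton_iff] at hy
      rw [← hc]
      change (c * y * c⁻¹) * (c * g * c⁻¹) = (c * g * c⁻¹) * (c * y * c⁻¹)
      have e1 : (c * y * c⁻¹) * (c * g * c⁻¹) = c * (y * g) * c⁻¹ := by group
      have e2 : (c * g * c⁻¹) * (c * y * c⁻¹) = c * (g * y) * c⁻¹ := by group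
      rw [e1, e2, hy]
    · intro hx
      refine ⟨c⁻¹ * x * c, ?_, ?_⟩
      · rw [Subgroup.mem_centralizer_singleton_iff]
        have e0 : g = c⁻¹ * h * c := by rw [← hc]; group
        rw [e0]
        have e1 : c⁻¹ * x * c * (c⁻¹ * h * c) = c⁻¹ * (x * h) * c := by group
        have e2 : c⁻¹ * h * c * (c⁻¹ * x * c) = c⁻¹ * (h * x) * c := by group
        rw [e1, e2, hx]
      · change c * (c⁻¹ * x * c) * c⁻¹ = x
        group

theorem t (h : S_PER) : S_POW := by
  intro N g hg
  obtain ⟨L, hL⟩ := exists_rep hg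
  obtain ⟨p, k, hk, hw⟩ := exists_word L hL.1 hL.2.1
  obtain ⟨hred, -, -, hp, -, -, -⟩ := h N p
  obtain ⟨q, hq⟩ := exists_ax p hred
  have hconj : IsConj g (p.g ^ k) := by
    have h1 := hL.2.2
    rw [← hw] at h1
    rw [← el_mul]
    exact h1
  refine ⟨p, hp, k, hk, hconj, ?_⟩
  have h1 : Ends g = Ends p.g := by
    rw [← ends_pow hk hq]
    ext r
    exact ⟨fun h => ends_conj hconj.symm h, fun h => ends_conj hconj h⟩
  have h2 : expo g = k := by
    rw [expo_conj hconj]
    unfold expo
    rw [cent_pow hk hq]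
    exact relIndex_zpowers_pow (not_isOfFinOrder_of_isMulTorsionFree hp) k
  change etaMeas g = (k : ℝ≥0) • etaMeas p.g
  unfold etaMeas
  rw [h1, h2, expo_one hq, Nat.cast_one, one_smul]

end Pool.Agent.N488.PSC4.POW
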